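import Pool.Agent.X182.SH.Rec

/-!
# Outer measure up to fewer than continuum many points
-/

set_option autoImplicit false

namespace Pool.Agent.X182.SH

open Set Cardinal Topology Filter MeasureTheory Pool.Agent.H3R3.Rigid
open scoped ENNReal

/-- the outer measure of `A` up to fewer than continuum many points -/
noncomputable def mm (A : Set C) : ℝ≥0∞ := ⨅ S : {S : Set C // #S < 𝔠}, mu (A \ S.1)

lemma mm_le_diff (A : Set C) {S : Set C} (hS : #S < 𝔠) : mm A ≤ mu (A \ S) :=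
  iInf_le (fun S : {S : Set C // #S < 𝔠} => mu (A \ S.1)) ⟨S, hS⟩

lemma mm_le (A : Set C) : mm A ≤ mu A := by
  have h := mm_le_diff A (S := ∅) (by simpa using continuum_pos)
  simpa using h

lemma le_mm {A : Set C} {e : ℝ≥0∞} (h : ∀ S : Set C, #S < 𝔠 → e ≤ mu (A \ S)) : e ≤ mm A :=
  le_iInf fun S => h S.1 S.2

lemma exists_of_mm_lt {A : Set C} {e : ℝ≥0∞} (h : mm A < e) : ∃ S : Set C, #S < 𝔠 ∧
    mu (A \ S) < e := by
  obtain ⟨S, hS⟩ := iInf_lt_iff.1 h
  exact ⟨S.1, S.2, hS⟩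

lemma mk_iUnion_lt {S : ℕ → Set C} (h : ∀ n, #(S n) < 𝔠) : #(⋃ n, S n) < 𝔠 := by
  refine (mk_iUnion_le _).trans_lt ?_
  have h1 : ⨆ n, #(S n) < 𝔠 := by
    refine Cardinal.iSup_lt_of_lt_cof_ord ?_ h
    rw [mk_nat, ← two_power_aleph0]
    exact lt_cof_ord_power le_rfl one_lt_two
  exact mul_lt_of_lt aleph0_le_continuum (by rw [mk_nat]; exact aleph0_lt_continuum) h1

lemma mm_iUnion_lt {A : ℕ → Set C} (h : ∀ n, mm (A n) = 0) {e : ℝ≥0∞} (he : e ≠ 0) :
    ∃ S : Set C, #S < 𝔠 ∧ mu ((⋃ n, A n) \ S) < e := by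
  obtain ⟨d, hd, hde⟩ := ENNReal.exists_pos_sum_of_countable' he ℕ
  have hS : ∀ n, ∃ S : Set C, #S < 𝔠 ∧ mu (A n \ S) < d n :=
    fun n => exists_of_mm_lt (by rw [h n]; exact hd n)
  choose S hS1 hS2 using hS
  refine ⟨⋃ n, S n, mk_iUnion_lt hS1, ?_⟩
  have hsub : (⋃ n, A n) \ (⋃ n, S n) ⊆ ⋃ n, A n \ S n := by
    rintro z ⟨hz, hz'⟩
    obtain ⟨n, hn⟩ := mem_iUnion.1 hz
    exact mem_iUnion.2 ⟨n, hn, fun h' => hz' (mem_iUnion.2 ⟨n, h'⟩)⟩
  refine (measure_mono hsub).trans_lt ?_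
  refine (measure_iUnion_le _).trans_lt ?_
  exact (ENNReal.tsum_le_tsum fun n => (hS2 n).le).trans_lt hde

lemma one_le_diff {X : Set C} (hX : ∀ K : Set C, IsClosed K → mu K ≠ 0 → 𝔠 ≤ #(K ∩ X : Set C))
    {S : Set C} (hS : #S < 𝔠) : 1 ≤ mu (X \ S) := by
  by_contra hc
  push Not at hc
  have hM : MeasurableSet (toMeasurable mu (X \ S))ᶜ := (measurableSet_toMeasurable _ _).compl
  have h0 : mu (toMeasurable mu (X \ S))ᶜ ≠ 0 := by
    intro h
    have h1 := prob_add_prob_compl (μ := mu) (measurableSet_toMeasurable mu (X \ S))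
    rw [h, add_zero, measure_toMeasurable] at h1
    exact absurd h1 hc.ne
  obtain ⟨K, hKM, hK, hK0⟩ := hM.exists_lt_isClosed_of_ne_top (measure_ne_top mu _)
    (pos_iff_ne_zero.2 h0)
  have h2 : (K ∩ X : Set C) ⊆ S := by
    rintro z ⟨hz, hzX⟩
    by_contra hzS
    exact hKM hz (subset_toMeasurable mu _ ⟨hzX, hzS⟩)
  exact absurd ((hX K hK hK0.ne').trans (mk_le_mk_of_subset h2)) (not_le.2 hS)

/-- a homeomorphism between subspaces which changes only finitely many coordinates, except at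
fewer than continuum many points, does not increase `mm` -/
lemma mm_range_le {U : Type} [TopologicalSpace U] (a b : U → C) (ha : IsEmbedding a)
    (hb : Continuous b) (hE : #{u | ¬ E0 (a u) (b u)} < 𝔠) : mm (range b) ≤ mm (range a) := by
  refine le_mm fun S hS => ?_
  have h1 : #(b '' (a ⁻¹' S ∪ {u | ¬ E0 (a u) (b u)}) : Set C) < 𝔠 := by
    refine mk_image_le.trans_lt ?_
    refine (mk_union_le _ _).trans_lt ?_
    exact add_lt_of_lt aleph0_le_continuum
      ((mk_preimage_of_injective a S ha.injective).trans_lt hS) hE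
  refine (mm_le_diff _ h1).trans ?_
  set N : Set U := {u | a u ∉ S ∧ E0 (a u) (b u)} with hN
  obtain ⟨g, hg⟩ := exists_surjective_nat (Finset ℕ)
  set V : ℕ → Set U := fun n => {u | b u = flip (g n) (a u)} with hV
  have hVc : ∀ n, IsClosed (V n) := fun n => isClosed_eq hb ((continuous_flip _).comp ha.continuous)
  set D : ℕ → Set C := fun n => closure (a '' V n) with hD
  have hVD : ∀ n u, a u ∈ D n → u ∈ V n := by
    intro n u hu
    have h2 : u ∈ a ⁻¹' closure (a '' V n) := hu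
    rw [← ha.closure_eq_preimage_closure_image, (hVc n).closure_eq] at h2
    exact h2
  have hEm : ∀ n, MeasurableSet (disjointed D n) :=
    fun n => MeasurableSet.disjointed (fun i => isClosed_closure.measurableSet) n
  have hcov : range b \ (b '' (a ⁻¹' S ∪ {u | ¬ E0 (a u) (b u)})) ⊆
      ⋃ n, flip (g n) '' (disjointed D n ∩ a '' N) := by
    rintro y ⟨⟨u, rfl⟩, hu⟩
    have hu1 : a u ∉ S := fun h => hu ⟨u, Or.inl h, rfl⟩
    have hu2 : E0 (a u) (b u) := by
      by_contra h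
      exact hu ⟨u, Or.inr h, rfl⟩
    obtain ⟨q, hq⟩ := exists_flip_of_E0 hu2
    obtain ⟨n, rfl⟩ := hg q
    have h3 : a u ∈ ⋃ n, D n := mem_iUnion.2 ⟨n, subset_closure ⟨u, hq, rfl⟩⟩
    rw [← iUnion_disjointed] at h3
    obtain ⟨k, hk⟩ := mem_iUnion.1 h3
    have h4 : u ∈ V k := hVD k u (disjointed_subset D k hk)
    exact mem_iUnion.2 ⟨k, a u, ⟨hk, u, ⟨hu1, hu2⟩, rfl⟩, h4.symm⟩
  refine (measure_mono hcov).trans ?_
  refine (measure_iUnion_le _).trans ?_
  have h5 : ∀ n, mu (flip (g n) '' (disjointed D n ∩ a '' N))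
      = (mu.restrict (a '' N)) (disjointed D n) := by
    intro n
    rw [measure_flip_image, Measure.restrict_apply (hEm n)]
  simp only [h5]
  rw [← measure_iUnion (disjoint_disjointed D) hEm]
  refine (measure_mono (subset_univ _)).trans ?_
  rw [Measure.restrict_apply_univ]
  refine measure_mono ?_
  rintro _ ⟨u, hu, rfl⟩
  exact ⟨mem_range_self u, hu.1⟩

/-- A nonempty space is strongly homogeneous if it is homeomorphic to each of its nonempty clopen
subspaces. -/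
def StronglyHomogeneous (Y : Type) [TopologicalSpace Y] : Prop :=
  Nonempty Y ∧ ∀ U : Set Y, IsClopen U → U.Nonempty → Nonempty (U ≃ₜ Y)

lemma mm_range_eq_zero {X : Set C}
    (hX : ∀ c d : Code, #{z | z ∈ X ∧ phi c z ∈ X ∧ ¬ E0 z (phi c z) ∧ phi d (phi c z) = z} < 𝔠)
    {Y : Type} [TopologicalSpace Y] (e : Y → C) (he : IsEmbedding e) (heX : ∀ y, e y ∈ X)
    (hY : StronglyHomogeneous Y) : mm (range e) = 0 := by
  by_contra h0
  obtain ⟨⟨y0⟩, hh⟩ := hY
  obtain ⟨k, hk⟩ := exists_agr_small (e y0) (pos_iff_ne_zero.2 h0)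
  obtain ⟨h⟩ := hh (e ⁻¹' {z | Agr k (e y0) z}) ((isClopen_agr k (e y0)).preimage he.continuous)
    ⟨y0, agr_refl k (e y0)⟩
  have hsc : SecondCountableTopology Y := he.secondCountableTopology
  have hne : Nonempty (e ⁻¹' {z | Agr k (e y0) z} : Set Y) := ⟨⟨y0, agr_refl k (e y0)⟩⟩
  have ha : IsEmbedding (fun u : (e ⁻¹' {z | Agr k (e y0) z} : Set Y) => e u.1) :=
    he.comp IsEmbedding.subtypeVal
  have hb : IsEmbedding (fun u : (e ⁻¹' {z | Agr k (e y0) z} : Set Y) => e (h u)) :=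
    he.comp h.isEmbedding
  obtain ⟨c, hc⟩ := exists_code _ _ ha.isInducing hb.continuous
  obtain ⟨d, hd⟩ := exists_code _ _ hb.isInducing ha.continuous
  have h1 := mm_range_le _ _ ha hb.continuous (by
    refine lt_of_le_of_lt ?_ (hX c d)
    refine mk_le_of_injective (f := fun u : {u : (e ⁻¹' {z | Agr k (e y0) z} : Set Y) |
      ¬ E0 (e u.1) (e (h u))} => (⟨e u.1.1, heX _, ?_, ?_, ?_⟩ :
      {z | z ∈ X ∧ phi c z ∈ X ∧ ¬ E0 z (phi c z) ∧ phi d (phi c z) = z})) ?_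
    · rw [hc u.1]; exact heX _
    · rw [hc u.1]; exact u.2
    · rw [hc u.1]; exact hd u.1
    · intro u v huv
      exact Subtype.ext (Subtype.ext (he.injective (congrArg Subtype.val huv))))
  have h2 : range (fun u : (e ⁻¹' {z | Agr k (e y0) z} : Set Y) => e (h u)) = range e := by
    ext z
    constructor
    · rintro ⟨u, rfl⟩; exact mem_range_self _
    · rintro ⟨y, rfl⟩
      exact ⟨h.symm y, by simp⟩
  rw [h2] at h1
  have h3 : range (fun u : (e ⁻¹' {z | Agr k (e y0) z} : Set Y) => e u.1) ⊆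
      {z | Agr k (e y0) z} := by
    rintro _ ⟨u, rfl⟩
    exact u.2
  have h4 : mm (range e) < mm (range e) :=
    ((h1.trans (mm_le _)).trans (measure_mono h3)).trans_lt hk
  exact lt_irrefl _ h4

end Pool.Agent.X182.SH
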