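import Pool.Agent.H3R3.Rigid.Cantor

/-!
# The coin tossing measure on the Cantor space and finite changes
-/

set_option autoImplicit false

namespace Pool.Agent.X182.SH

open Set Topology Filter MeasureTheory Pool.Agent.H3R3.Rigid
open scoped ENNReal

/-- the fair coin -/
noncomputable def mB : Measure Bool := (2⁻¹ : ℝ≥0∞) • Measure.count

lemma mB_singleton (b : Bool) : mB {b} = 2⁻¹ := by
  simp [mB]

instance : IsProbabilityMeasure mB := ⟨by
  have h : (univ : Set Bool) = {true} ∪ {false} := by ext b; cases b <;> simp
  rw [h, measure_union (by simp) (measurableSet_singleton _), mB_singleton, mB_singleton,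
    ENNReal.inv_two_add_inv_two]⟩

lemma mB_map_not : mB.map (fun b => !b) = mB := by
  refine Measure.ext_of_singleton fun b => ?_
  rw [Measure.map_apply (measurable_of_countable _) (measurableSet_singleton _)]
  have h : (fun b => !b) ⁻¹' {b} = {!b} := by ext c; cases b <;> cases c <;> simp
  rw [h, mB_singleton, mB_singleton]

/-- the coin tossing measure -/
noncomputable def mu : Measure C := Measure.infinitePi (fun _ : ℕ => mB)

instance : IsProbabilityMeasure mu := by unfold mu; infer_instance

/-- a finite change of coordinates -/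
def flip (q : Finset ℕ) (x : C) : C := fun n => if n ∈ q then !(x n) else x n

lemma flip_flip (q : Finset ℕ) (x : C) : flip q (flip q x) = x := by
  funext n
  by_cases h : n ∈ q <;> simp [flip, h]

lemma continuous_flip (q : Finset ℕ) : Continuous (flip q) := by
  refine continuous_pi fun n => ?_
  by_cases h : n ∈ q
  · simp only [flip, h, if_true]
    exact (continuous_of_discreteTopology (f := fun b : Bool => !b)).comp (continuous_apply n)
  · simp only [flip, h, if_false]
    exact continuous_apply n

/-- `flip q` is a homeomorphism -/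
def flipHomeo (q : Finset ℕ) : C ≃ₜ C where
  toFun := flip q
  invFun := flip q
  left_inv := flip_flip q
  right_inv := flip_flip q
  continuous_toFun := continuous_flip q
  continuous_invFun := continuous_flip q

lemma flip_preserving (q : Finset ℕ) : MeasurePreserving (flip q) mu mu := by
  refine ⟨(continuous_flip q).measurable, ?_⟩
  have h : flip q = fun (x : C) (i : ℕ) => (if i ∈ q then (fun b : Bool => !b) else id) (x i) := by
    funext x i
    by_cases h : i ∈ q <;> simp [flip, h]
  rw [h]
  unfold mu
  rw [Measure.infinitePi_map_pi (μ := fun _ : ℕ => mB)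
    (f := fun (i : ℕ) => if i ∈ q then (fun b : Bool => !b) else id)
    (fun i => measurable_of_countable _)]
  congr 1
  funext i
  by_cases h : i ∈ q
  · simp only [h, if_true]; exact mB_map_not
  · simp only [h, if_false]; exact Measure.map_id

lemma measure_flip_image (q : Finset ℕ) (S : Set C) : mu (flip q '' S) = mu S := by
  have h1 : flip q '' S = (flipHomeo q).toMeasurableEquiv ⁻¹' S := by
    ext y
    constructor
    · rintro ⟨x, hx, rfl⟩
      show flip q (flip q x) ∈ S
      rwa [flip_flip]
    · intro hy
      exact ⟨flip q y, hy, flip_flip q y⟩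
  rw [h1]
  have h2 : MeasurePreserving ((flipHomeo q).toMeasurableEquiv) mu mu := flip_preserving q
  exact h2.measure_preimage_equiv S

lemma exists_flip_of_E0 {x y : C} (h : E0 x y) : ∃ q : Finset ℕ, y = flip q x := by
  have hf : ({n | x n ≠ y n} : Set ℕ).Finite := h
  refine ⟨hf.toFinset, ?_⟩
  funext n
  by_cases h : x n = y n
  · have h2 : n ∉ Set.Finite.toFinset hf := by
      rw [Set.Finite.mem_toFinset]; exact fun h' => h' h
    simp [flip, h2, h]
  · have h2 : n ∈ Set.Finite.toFinset hf := by
      rw [Set.Finite.mem_toFinset]; exact h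
    simp only [flip, h2, if_true]
    revert h
    cases x n <;> cases y n <;> simp

lemma E0_flip (q : Finset ℕ) (x : C) : E0 x (flip q x) := by
  refine (q.finite_toSet).subset fun n hn => ?_
  by_contra hc
  apply hn
  have : n ∉ q := hc
  simp [flip, this]

lemma flip_left_injective {q r : Finset ℕ} {x : C} (h : flip q x = flip r x) : q = r := by
  ext n
  have h1 := congrFun h n
  by_cases h2 : n ∈ q <;> by_cases h3 : n ∈ r <;> simp [flip, h2, h3] at h1 ⊢

lemma isClopen_agr (k : ℕ) (x : C) : IsClopen {y : C | Agr k x y} := by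
  refine ⟨?_, isOpen_agr k x⟩
  have h : {y : C | Agr k x y} = ⋂ i ∈ Set.Iio k, {y : C | y i = x i} := by
    ext y
    simp [Agr]
  rw [h]
  exact isClosed_biInter fun i _ => isClosed_eq (continuous_apply i) continuous_const

lemma mu_agr (k : ℕ) (x : C) : mu {y : C | Agr k x y} = 2⁻¹ ^ k := by
  have h : {y : C | Agr k x y} = Set.pi (Finset.range k : Set ℕ) (fun i => ({x i} : Set Bool)) := by
    ext y
    simp [Agr, Set.mem_pi]
  rw [h]
  unfold mu
  rw [Measure.infinitePi_pi _ (fun i _ => measurableSet_singleton _)]
  simp [mB_singleton]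

lemma exists_agr_small (x : C) {e : ℝ≥0∞} (he : 0 < e) : ∃ k, mu {y : C | Agr k x y} < e := by
  have h : Tendsto (fun k : ℕ => (2⁻¹ : ℝ≥0∞) ^ k) atTop (𝓝 0) :=
    ENNReal.tendsto_pow_atTop_nhds_zero_of_lt_one (by simp)
  obtain ⟨k, hk⟩ := (h.eventually (gt_mem_nhds he)).exists
  exact ⟨k, by rw [mu_agr]; exact hk⟩

lemma mu_singleton (x : C) : mu {x} = 0 := by
  by_contra h
  have h0 : 0 < mu {x} := pos_iff_ne_zero.2 h
  obtain ⟨k, hk⟩ := exists_agr_small x h0
  have h1 : mu {x} ≤ mu {y : C | Agr k x y} :=
    measure_mono (singleton_subset_iff.2 (agr_refl k x))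
  exact absurd hk (not_lt.2 h1)

instance : NullSingletonClass mu := ⟨mu_singleton⟩

end Pool.Agent.X182.SH
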