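import Pool.Agent.H3R3.Rigid.Rec
import Pool.Agent.X182.SH.Meas

/-!
# A transfinite recursion: sets closed under finite changes without other partial homeomorphisms
-/

set_option autoImplicit false

namespace Pool.Agent.X182.SH

open Set Cardinal Topology Filter MeasureTheory Pool.Agent.H3R3.Rigid
open scoped ENNReal

/-- codes of continuous maps between subspaces: the values on a countable dense set -/
abbrev Code : Type := (ℕ → C) × (ℕ → C)

/-- the map with a given code -/
noncomputable def phi (c : Code) (x : C) : C := limUnder (comap c.1 (𝓝 x)) c.2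

lemma exists_code {U : Type} [TopologicalSpace U] [TopologicalSpace.SeparableSpace U] [Nonempty U]
    (a b : U → C) (ha : IsInducing a) (hb : Continuous b) : ∃ c : Code, ∀ u, phi c (a u) = b u := by
  refine ⟨(a ∘ TopologicalSpace.denseSeq U, b ∘ TopologicalSpace.denseSeq U), fun u => ?_⟩
  have h1 : comap (a ∘ TopologicalSpace.denseSeq U) (𝓝 (a u))
      = comap (TopologicalSpace.denseSeq U) (𝓝 u) := by
    rw [← comap_comap, ← ha.nhds_eq_comap]
  have h2 : (comap (TopologicalSpace.denseSeq U) (𝓝 u)).NeBot := by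
    rw [comap_neBot_iff_frequently]
    have h3 := (TopologicalSpace.denseRange_denseSeq U) u
    rw [mem_closure_iff_frequently] at h3
    exact h3
  show limUnder (comap (a ∘ TopologicalSpace.denseSeq U) (𝓝 (a u)))
    (b ∘ TopologicalSpace.denseSeq U) = b u
  rw [h1]
  refine Tendsto.limUnder_eq ?_
  exact (hb.tendsto u).comp tendsto_comap

lemma mk_C : #C = 𝔠 := by simp

lemma mk_Code : #Code = 𝔠 := by simp

/-- the index set of the recursion -/
abbrev Ix : Type := (𝔠 : Cardinal.{0}).ord.ToType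

lemma mk_Ix : #Ix = 𝔠 := by simp

theorem exists_points (P : Ix → Set C) (hP : ∀ i, 𝔠 ≤ #(P i)) (c : Ix → Code) :
    ∃ x : Ix → C, (∀ i, x i ∈ P i) ∧ (∀ i j, j < i → ¬ E0 (x j) (x i)) ∧
      ∀ i j k, j < i → k < i → ∀ z, E0 (x j) z → ¬ E0 (phi (c k) z) (x i) := by
  classical
  let Q : ∀ i : Ix, (∀ j, j < i → C) → C → Prop :=
    fun i g a => a ∈ P i ∧ ∀ j (hj : j < i), ¬ E0 (g j hj) a ∧
      ∀ k, k < i → ∀ z, E0 (g j hj) z → ¬ E0 (phi (c k) z) a
  have hQ : ∀ i g, ∃ a, Q i g a := by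
    intro i g
    let N1 : Set C := ⋃ j : Iio i, {y | E0 (g j.1 j.2) y}
    let N2 : Set C := ⋃ p : Iio i × Iio i, ⋃ z ∈ {z | E0 (g p.1.1 p.1.2) z},
      {y | E0 (phi (c p.2.1) z) y}
    have hN1 : #N1 < 𝔠 := by
      have h1 : #N1 ≤ #(Iio i) * ℵ₀ := by
        refine (mk_iUnion_le _).trans ?_
        refine mul_le_mul_right ?_ _
        refine ciSup_le' fun j => ?_
        exact (E0.countable _).le_aleph0
      refine h1.trans_lt ?_
      exact mul_lt_of_lt aleph0_le_continuum (mk_Iio_toType_ord_lt i) aleph0_lt_continuum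
    have hN2 : #N2 < 𝔠 := by
      have h1 : #N2 ≤ #(Iio i × Iio i) * ℵ₀ := by
        refine (mk_iUnion_le _).trans ?_
        refine mul_le_mul_right ?_ _
        refine ciSup_le' fun p => ?_
        exact ((E0.countable _).biUnion fun z _ => E0.countable _).le_aleph0
      refine h1.trans_lt ?_
      have h2 : #(Iio i × Iio i) < 𝔠 := by
        simp only [mk_prod, lift_id]
        exact mul_lt_of_lt aleph0_le_continuum (mk_Iio_toType_ord_lt i) (mk_Iio_toType_ord_lt i)
      exact mul_lt_of_lt aleph0_le_continuum h2 aleph0_lt_continuum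
    have hN : #(N1 ∪ N2 : Set C) < 𝔠 :=
      (mk_union_le _ _).trans_lt (add_lt_of_lt aleph0_le_continuum hN1 hN2)
    obtain ⟨a, ha, haN⟩ : ∃ a ∈ P i, a ∉ N1 ∪ N2 := by
      by_contra hc
      push Not at hc
      exact absurd ((hP i).trans (mk_le_mk_of_subset hc)) (not_le.2 hN)
    refine ⟨a, ha, fun j hj => ⟨fun h => haN (Or.inl (mem_iUnion.2 ⟨⟨j, hj⟩, h⟩)),
      fun k hk z hz h => haN (Or.inr (mem_iUnion.2 ⟨(⟨j, hj⟩, ⟨k, hk⟩), ?_⟩))⟩⟩
    exact mem_iUnion₂.2 ⟨z, hz, h⟩
  obtain ⟨f, hf⟩ := exists_rec (r := fun a b : Ix => a < b) wellFounded_lt Q hQ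
  exact ⟨f, fun i => (hf i).1, fun i j hj => ((hf i).2 j hj).1,
    fun i j k hj hk => ((hf i).2 j hj).2 k hk⟩

/-- closed sets of positive measure -/
abbrev Pos : Type := {K : Set C // IsClosed K ∧ mu K ≠ 0}

lemma mk_Pos : #Pos ≤ 𝔠 := by
  obtain ⟨b, hb, hb'⟩ := MeasurableSpace.CountablyGenerated.isCountablyGenerated (α := C)
  have h := MeasurableSpace.cardinal_measurableSet_le_continuum (s := b)
    (hb.le_aleph0.trans aleph0_le_continuum)
  rw [← hb'] at h
  refine le_trans ?_ h
  refine mk_le_of_injective (f := fun K : Pos => (⟨K.1, K.2.1.measurableSet⟩ :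
    {B : Set C // MeasurableSet B})) ?_
  intro K L h
  have h2 : K.1 = L.1 := congrArg (fun B : {B : Set C // MeasurableSet B} => B.1) h
  exact Subtype.ext h2

lemma polish_C : PolishSpace C := by
  have h : PolishSpace Bool := by infer_instance
  exact (inferInstance : PolishSpace (ℕ → Bool))

lemma le_mk_of_pos {K : Set C} (hK : IsClosed K) (h : mu K ≠ 0) : 𝔠 ≤ #K := by
  have h1 : ¬ K.Countable := fun h' => h (h'.measure_zero mu)
  have h2 := polish_C
  obtain ⟨f, hf, -, hinj⟩ := hK.exists_nat_bool_injection_of_not_countable h1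
  rw [← mk_C]
  refine mk_le_of_injective (f := fun x => (⟨f x, hf (mem_range_self x)⟩ : K)) ?_
  intro x y hxy
  exact hinj (congrArg Subtype.val hxy)

/-- **The set.** -/
theorem exists_set : ∃ X : Set C,
    (∀ p q, E0 p q → p ∈ X → q ∈ X) ∧
    (∀ K : Set C, IsClosed K → mu K ≠ 0 → 𝔠 ≤ #(K ∩ X : Set C)) ∧
    (∀ c d : Code, #{z | z ∈ X ∧ phi c z ∈ X ∧ ¬ E0 z (phi c z) ∧ phi d (phi c z) = z} < 𝔠) := by
  classical
  let T : Type := Pos × C × Code
  have hT : #T ≤ #Ix := by
    rw [mk_Ix]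
    show #(Pos × C × Code) ≤ 𝔠
    rw [mk_prod, mk_prod, mk_C, mk_Code]
    simp only [lift_id]
    refine mul_le_of_le aleph0_le_continuum mk_Pos ?_
    simp
  have hne : mu (univ : Set C) ≠ 0 := by simp
  have : Nonempty T := ⟨(⟨univ, isClosed_univ, hne⟩, fun _ => true,
    (fun _ _ => true, fun _ _ => true))⟩
  obtain ⟨e⟩ := hT
  have hs := Function.invFun_surjective e.injective
  set s : Ix → T := Function.invFun e with hsdef
  obtain ⟨x, hx1, hx2, hx3⟩ := exists_points (fun i => (s i).1.1)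
    (fun i => le_mk_of_pos (s i).1.2.1 (s i).1.2.2) (fun i => (s i).2.2)
  have hx2' : ∀ i j, E0 (x i) (x j) → i = j := by
    intro i j h
    rcases lt_trichotomy i j with h1 | h1 | h1
    · exact absurd h (hx2 j i h1)
    · exact h1
    · exact absurd h.symm (hx2 i j h1)
  refine ⟨{z | ∃ i, E0 (x i) z}, ?_, ?_, ?_⟩
  · rintro p q hpq ⟨i, hi⟩
    exact ⟨i, hi.trans hpq⟩
  · intro K hK hK0
    have hc : ∀ t : C, ∃ i, s i = (⟨K, hK, hK0⟩, t, (fun _ _ => true, fun _ _ => true)) :=
      fun t => hs _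
    choose g hg using hc
    rw [← mk_C]
    refine mk_le_of_injective (f := fun t : C => (⟨x (g t), ?_, g t, E0.refl _⟩ :
      (K ∩ {z | ∃ i, E0 (x i) z} : Set C))) ?_
    · have := hx1 (g t)
      rw [hg t] at this
      exact this
    · intro t t' h
      have h1 : x (g t) = x (g t') := congrArg Subtype.val h
      have h2 : g t = g t' := hx2' _ _ (by rw [h1]; exact E0.refl _)
      have h3 := hg t
      rw [h2, hg t'] at h3
      exact (congrArg (fun p : T => p.2.1) h3).symm
  · intro c d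
    obtain ⟨i, hi⟩ := hs ((⟨univ, isClosed_univ, hne⟩, fun _ => true, c) : T)
    obtain ⟨j, hj⟩ := hs ((⟨univ, isClosed_univ, hne⟩, fun _ => true, d) : T)
    have hi' : (s i).2.2 = c := by rw [hi]
    have hj' : (s j).2.2 = d := by rw [hj]
    have hsub : {z | z ∈ {z | ∃ i, E0 (x i) z} ∧ phi c z ∈ {z | ∃ i, E0 (x i) z} ∧
        ¬ E0 z (phi c z) ∧ phi d (phi c z) = z} ⊆ ⋃ k : Iic (max i j), {z | E0 (x k.1) z} := by
      rintro z ⟨⟨k, hk⟩, ⟨l, hl⟩, h3, h4⟩
      have hkl : k ≠ l := by
        rintro rfl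
        exact h3 (hk.symm.trans hl)
      refine mem_iUnion.2 ⟨⟨k, ?_⟩, hk⟩
      show k ≤ max i j
      by_contra hcon
      push Not at hcon
      rcases lt_or_gt_of_ne hkl with h5 | h5
      · -- k < l
        refine hx3 l k i h5 (((le_max_left i j).trans_lt hcon).trans h5) z hk ?_
        rw [hi']
        exact hl.symm
      · -- l < k
        refine hx3 k l j h5 ((le_max_right i j).trans_lt hcon) (phi c z) hl ?_
        rw [hj', h4]
        exact hk.symm
    refine (mk_le_mk_of_subset hsub).trans_lt ?_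
    have h1 : #(⋃ k : Iic (max i j), {z | E0 (x k.1) z} : Set C) ≤ #(Iic (max i j)) * ℵ₀ := by
      refine (mk_iUnion_le _).trans ?_
      refine mul_le_mul_right ?_ _
      refine ciSup_le' fun j => ?_
      exact (E0.countable _).le_aleph0
    refine h1.trans_lt ?_
    refine mul_lt_of_lt aleph0_le_continuum ?_ aleph0_lt_continuum
    have h2 : (Iic (max i j) : Set Ix) ⊆ Iio (max i j) ∪ {max i j} := by
      intro k hk
      rcases lt_or_eq_of_le (show k ≤ max i j from hk) with h | h
      · exact Or.inl h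
      · exact Or.inr h
    refine (mk_le_mk_of_subset h2).trans_lt ?_
    refine (mk_union_le _ _).trans_lt ?_
    refine add_lt_of_lt aleph0_le_continuum (mk_Iio_toType_ord_lt _) ?_
    simpa using nat_lt_continuum 1

end Pool.Agent.X182.SH
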